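import Mathlib
import Pool.Agent.R486.PD.Final
import Pool.Agent.R486.PD.MajorArcs
import Pool.Agent.R486.PD.MinorArcs
import Pool.Agent.R486.PD.ModelMinor
import Pool.Agent.R486.PD.ErgAbs
import Pool.Agent.R486.PD.ErgL
import Pool.Agent.R486.PD.Mean
import Pool.Agent.R486.PD.PrimeCorr
import Pool.Agent.R486.PD.Combi

/-!
# MP_e70ed2_nt: maximal density of sets avoiding polynomial-value differences

For every nonzero polynomial `h` with integer coefficients, both for `X = h(ℤ)` and for `X = h(P)` (`P` the set of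
primes), `μ(X) = sup_m d_X(m) / m`.
-/

set_option autoImplicit false

namespace Pool.Agent.Results.MP_e70ed2_nt.PolynomialDifferences

open Polynomial

open Classical in
/-- the upper density `limsup |A ∩ {1, ..., N}| / N` of a set `A` of natural numbers -/
noncomputable def upperDensity (A : Set ℕ) : ℝ :=
  Filter.limsup (fun N : ℕ => (Finset.card ((Finset.Icc 1 N).filter (fun n => n ∈ A)) : ℝ) / N) Filter.atTop

/-- `μ(X)`: the supremum of the upper densities of the sets `A` of positive integers with `(A - A) ∩ X ⊆ {0}`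
(the set of these densities is nonempty and bounded by `1`) -/
noncomputable def mu (X : Set ℤ) : ℝ :=
  sSup {δ : ℝ | ∃ A : Set ℕ, (∀ a ∈ A, 1 ≤ a) ∧
    (∀ a ∈ A, ∀ b ∈ A, (a : ℤ) - b ∈ X → (a : ℤ) - b = 0) ∧ δ = upperDensity A}

/-- `X_m`: the residue classes modulo `m` that contain at least one nonzero element of `X` -/
def residues (X : Set ℤ) (m : ℕ) : Set (ZMod m) := {y | ∃ x ∈ X, x ≠ 0 ∧ (x : ZMod m) = y}

/-- `d_X(m)`: the largest cardinality of a subset `A` of `ℤ/mℤ` with `(A - A) ∩ X_m = ∅` -/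
noncomputable def dX (X : Set ℤ) (m : ℕ) : ℕ :=
  sSup {k : ℕ | ∃ A : Finset (ZMod m), (∀ a ∈ A, ∀ b ∈ A, a - b ∉ residues X m) ∧ k = A.card}

/-- For every nonzero `h ∈ ℤ[x]`: `μ(h(ℤ)) = sup_m d_{h(ℤ)}(m) / m` and `μ(h(P)) = sup_m d_{h(P)}(m) / m`. -/
theorem result (h : ℤ[X]) (h0 : h ≠ 0) :
    mu (Set.range fun n : ℤ => h.eval n) =
      ⨆ m : ℕ+, (dX (Set.range fun n : ℤ => h.eval n) m : ℝ) / m ∧
    mu {x : ℤ | ∃ p : ℕ, p.Prime ∧ x = h.eval (p : ℤ)} =
      ⨆ m : ℕ+, (dX {x : ℤ | ∃ p : ℕ, p.Prime ∧ x = h.eval (p : ℤ)} m : ℝ) / m :=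
  Pool.Agent.R486.PD.main (Pool.Agent.R486.PD.ergL Pool.Agent.R486.PD.ergAbs) Pool.Agent.R486.PD.existsMean
    Pool.Agent.R486.PD.combi
    (Pool.Agent.R486.PD.primeCorr (Pool.Agent.R486.PD.primeUniform_of Pool.Agent.R486.PD.minorArcs
      Pool.Agent.R486.PD.majorArcs Pool.Agent.R486.PD.modelMinor)) h h0

end Pool.Agent.Results.MP_e70ed2_nt.PolynomialDifferences
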